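import Pool.Agent.R629.NF.Rank

/-!
# The field of definition of the Satake parameters and the boundary values of conjugate L-functions

Let `Π` be an automorphic representation of a connected reductive group `G` over `ℚ` and
`r : ᴸG → GL(n)` a representation, and suppose that for `p ∉ S` the class `r(s_p)` is represented by a
matrix with algebraic entries.  For every embedding `φ : ℚ̄ → ℂ` one has the conjugate Euler product
`L_φ(s) = ∏_{p ∉ S} det (1 - φ(r(s_p)) p^{-s})⁻¹`.  Suppose that all eigenvalues of all `φ(r(s_p))` are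
at most `p^w` in absolute value.  Then the `L_φ(s)` have boundary values `l_φ(t)` at almost all points
`1 + w + it`.

Part 1 of the conjecture of Buzzard and Gee says that the Satake parameters are defined over one number
field.  The theorem says that the polynomials `det (X - r(s_p))` have coefficients in one number field,
for almost all `p`, if and only if there is a number `r` such that among any `r + 1` of the functions
`l_φ` there is an algebraic relation.
-/

set_option autoImplicit false

namespace Pool.Agent.Results.MP_666dc0_nt.FieldOfDefinition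

open MeasureTheory Filter Topology
open Pool.Agent.R629.SP Pool.Agent.R629.NF

/-- The matrices `φ(s_p)`. -/
noncomputable def conjugate {n : ℕ} (s : Nat.Primes → GL (Fin n) Qbar) (φ : Qbar →+* ℂ) :
    Nat.Primes → Matrix (Fin n) (Fin n) ℂ := fun p => (s p).val.map φ

/-- For every countable field `k` of complex numbers and almost all `t` the numbers `l_i(t)`, `i ∈ I`,
the number `t` and the numbers `p^{-it}`, `p` prime, are algebraically independent over `k`. -/
def AlgInd {I : Type} (l : I → ℝ → ℂ) : Prop :=
  ∀ k : Subfield ℂ, (k : Set ℂ).Countable →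
    ∀ᵐ t : ℝ, AlgebraicIndependent k (Sum.elim (fun i => l i t) (powers t))

/-- There is a number field `L` such that the characteristic polynomials of the `s_p` have
coefficients in `L` for all but finitely many `p ∉ S`. -/
def DefinedOverNumberField {n : ℕ} (S : Finset ℕ) (s : Nat.Primes → GL (Fin n) Qbar) : Prop :=
  ∃ L : IntermediateField ℚ Qbar, FiniteDimensional ℚ L ∧
    {p : Nat.Primes | (p : ℕ) ∉ S ∧ ¬ ∀ i, (s p).val.charpoly.coeff i ∈ L}.Finite

/-- **Field of definition.**  The boundary functions exist, and the characteristic polynomials of the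
`s_p` are defined over a number field, for almost all `p`, if and only if for some `r` there are no
`r + 1` embeddings `φ_i` of the field of algebraic numbers in `ℂ` with algebraically independent
boundary functions `l_{φ_i}`. -/
theorem result (n : ℕ) (S : Finset ℕ) (w : ℝ) (s : Nat.Primes → GL (Fin n) Qbar)
    (hs : ∀ φ : Qbar →+* ℂ, Bd S (conjugate s φ) w) :
    (∀ φ : Qbar →+* ℂ, ∃ l : ℝ → ℂ, IsBoundary S (conjugate s φ) w l) ∧
    ∀ l : (Qbar →+* ℂ) → ℝ → ℂ, (∀ φ, IsBoundary S (conjugate s φ) w (l φ)) →
      (DefinedOverNumberField S s ↔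
        ∃ r : ℕ, ∀ φ : Fin (r + 1) → (Qbar →+* ℂ), ¬ AlgInd fun i => l (φ i)) := by
  classical
  have hdet : ∀ (φ : Qbar →+* ℂ) (p : Nat.Primes), (conjugate s φ p).det ≠ 0 := by
    intro φ p
    unfold conjugate
    have h2 : ((s p).val.map φ).det = φ (s p).val.det := (RingHom.map_det _ _).symm
    rw [h2]
    exact fun h => ((Matrix.isUnit_iff_isUnit_det _).1 (s p).isUnit).ne_zero
      ((map_eq_zero _).1 h)
  have hch : ∀ (φ : Qbar →+* ℂ) (p : Nat.Primes),
      (conjugate s φ p).charpoly = (s p).val.charpoly.map φ := fun φ p =>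
    Matrix.charpoly_map _ φ
  refine ⟨fun φ => ⟨_, isBoundary_bd (hs φ)⟩, fun l hl => ⟨?_, ?_⟩⟩
  · rintro ⟨L, hL, hfin⟩
    have hnf : NumberField L := { to_charZero := inferInstance, to_finiteDimensional := hL }
    refine ⟨Module.finrank ℚ L, fun φ hind => ?_⟩
    obtain ⟨i, j, hij, heq⟩ := Fintype.exists_ne_map_eq_of_card_lt
      (fun i : Fin (Module.finrank ℚ L + 1) => (φ i).comp (algebraMap L Qbar))
      (by rw [NumberField.Embeddings.card L ℂ, Fintype.card_fin]; exact Nat.lt_succ_self _)
    have hrel : VirtualRelation S (conjugate s (φ i)) fun _ : Unit => conjugate s (φ j) := by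
      refine ⟨1, one_pos, Finsupp.single () 1, hfin.subset ?_⟩
      rintro p ⟨hp, z, hz⟩
      refine ⟨hp, fun hcoef => hz ?_⟩
      rw [Finsupp.sum_single_index (zero_mul _)]
      have h1 : (conjugate s (φ i) p).charpoly = (conjugate s (φ j) p).charpoly := by
        rw [hch, hch]
        ext d
        rw [Polynomial.coeff_map, Polynomial.coeff_map]
        exact RingHom.congr_fun heq ⟨_, hcoef d⟩
      rw [h1]
      simp
    obtain ⟨k, hk, h1⟩ := ((tfae_gen (hs (φ i)) (fun _ : Unit => hs (φ j))
      (fun p _ => hdet _ p) (fun _ p _ => hdet _ p) (hl (φ i))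
      (fun _ : Unit => hl (φ j))).out 0 1).1 hrel
    obtain ⟨t, h2, h3⟩ := (h1.and (hind k hk)).exists
    have h4 := h3.transcendental_adjoin (s := {Sum.inl i}ᶜ) (i := Sum.inl i) (by simp)
    rw [← IntermediateField.transcendental_adjoin_iff] at h4
    refine h4 (alg_trans (fun z hz => ?_) (fun z hz => ?_) h2)
    · exact isAlgebraic_algebraMap (⟨z, IntermediateField.algebraMap_mem _ (⟨z, hz⟩ : k)⟩ :
        IntermediateField.adjoin k ((Sum.elim (fun i => l (φ i) t) (powers t)) '' {Sum.inl i}ᶜ))
    · refine isAlgebraic_algebraMap (⟨z, IntermediateField.subset_adjoin _ _ ?_⟩ :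
        IntermediateField.adjoin k ((Sum.elim (fun i => l (φ i) t) (powers t)) '' {Sum.inl i}ᶜ))
      obtain ⟨_ | o, rfl⟩ := hz
      · exact ⟨Sum.inl j, by simpa using hij.symm, rfl⟩
      · exact ⟨Sum.inr o, by simp, rfl⟩
  · rintro ⟨r, hr⟩
    obtain ⟨ι⟩ : Nonempty (Qbar →+* ℂ) := ⟨(IsAlgClosed.lift : Qbar →ₐ[ℚ] ℂ).toRingHom⟩
    refine number_field_of_finite (fun p => (s p).val) ι
      (finite_classes (S := S) (fun φ : Qbar →+* ℂ => embFam (fun p => (s p).val) φ) r
        fun φ hli => hr φ ?_)
    intro k hk
    have h1 := allInd (M := fun i : Fin (r + 1) => conjugate s (φ i)) (S := S) (w := w)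
      (fun i => hs (φ i)) (fun i p _ => hdet (φ i) p)
      (unrelated_of_linInd (B := fun i : Fin (r + 1) => conjugate s (φ i)) hli) k hk
    have h2 : ∀ᵐ t : ℝ, ∀ i, l (φ i) t = bd S (conjugate s (φ i)) w t :=
      ae_all_iff.2 fun i => boundary_ae (hl (φ i)) (isBoundary_bd (hs (φ i)))
    filter_upwards [h1, h2] with t h3 h4
    have h5 : (fun i => l (φ i) t) = fun i => bd S (conjugate s (φ i)) w t := funext h4
    rw [h5]
    exact h3

end Pool.Agent.Results.MP_666dc0_nt.FieldOfDefinition
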