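import Pool.Agent.R401.Tp

/-!
# One embedding suffices, given congruences at a positive proportion of the places

Let `Π` and `Π₀` be L-algebraic automorphic representations of `GL_n` over the number field `K`,
`n ≥ 2`, with Satake polynomials `S v` and `P v` which have coefficients in the number field `E`,
for the places `v` outside of the set `B`. Suppose that the second part of the conjecture of Buzzard
and Gee is known for `Π₀`: for all primes `q` and all embeddings `φ : E → ℚ̄_q` there is a Galois
representation attached to the polynomials `φ (P v)`. Suppose that there is a Galois representation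
attached to `Π` for *one* prime `p` and *one* embedding `E → ℚ̄_p`, and that it is strongly
irreducible. If the traces of `Π` and `Π₀` satisfy the congruence
`tr (Π_v) ≡ ζ_v tr (Π₀_v)` modulo `N(v) ^ (w / 2)` for the places `v` in some set of positive upper
density, where the numbers `ζ_v` belong to a finite set, then the second part of the conjecture holds
for `Π`: for all primes `q` and all embeddings `φ : E → ℚ̄_q` there is a representation over `ℚ̄_q`
which is unramified with semisimple Frobenius elements of characteristic polynomial `φ (S v)` at all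
places `v` outside of `B` which do not lie above `p` or `q`.

Here the congruence means that `(tr (Π_v) - ζ_v tr (Π₀_v)) ^ 2 / N(v) ^ w` is integral up to a fixed
denominator `d`, and `w` is the weight: it is supposed that the conjugates of these numbers are
bounded in the mean; this holds for cuspidal representations by the theory of Rankin and Selberg.
If `w` is the weight of `Π`, then the size of the numbers `tr (Π_v)` is about `N(v) ^ (w / 2)`; no
equality of traces at any place is supposed.

Proof. By `Pool.Agent.R401.Pf.isTwist` (see the result `MP_b583a4_nt.PositiveDensityTwist`) the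
congruences imply that the two representations over `ℚ̄_p` differ by a character `χ` of finite order.
Its values are algebraic over `E`, and an extension of `φ` to the algebraic closure of `E` in `ℚ̄_p`
maps `χ` to a character with values in `ℚ̄_q`; the representation in question is the twist of the
representation attached to `Π₀` and `φ` by this character.
-/

set_option autoImplicit false

namespace Pool.Agent.Results.MP_666dc0_nt.OneEmbeddingSuffices

open NumberField IsDedekindDomain Filter Matrix Polynomial

/-- the absolute Galois group of the field `K`, with the Krull topology -/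
abbrev AbsGal (K : Type) [Field K] : Type := Gal(AlgebraicClosure K/K)

section
variable {K : Type} [Field K] [NumberField K]

/-- `g` is an (arithmetic) Frobenius element at a maximal ideal `Q` of the ring of all algebraic
integers which lies above the finite place `v` of `K`. -/
def IsFrobenius (v : HeightOneSpectrum (𝓞 K)) (g : AbsGal K) : Prop :=
  ∃ Q : Ideal (𝓞 (AlgebraicClosure K)), Q.IsMaximal ∧
    Q.comap (algebraMap (𝓞 K) (𝓞 (AlgebraicClosure K))) = v.asIdeal ∧
    ∀ x : 𝓞 (AlgebraicClosure K), g • x - x ^ Ideal.absNorm v.asIdeal ∈ Q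

/-- `g` belongs to the inertia group of a maximal ideal `Q` of the ring of all algebraic integers
which lies above the finite place `v` of `K`. -/
def IsInertia (v : HeightOneSpectrum (𝓞 K)) (g : AbsGal K) : Prop :=
  ∃ Q : Ideal (𝓞 (AlgebraicClosure K)), Q.IsMaximal ∧
    Q.comap (algebraMap (𝓞 K) (𝓞 (AlgebraicClosure K))) = v.asIdeal ∧
    ∀ x : 𝓞 (AlgebraicClosure K), g • x - x ∈ Q

variable {F : Type} [Field F] {n : ℕ}

/-- the matrix of `g` -/
noncomputable def mat (V : AbsGal K →* GL (Fin n) F) (g : AbsGal K) : Matrix (Fin n) (Fin n) F :=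
  (V g : GL (Fin n) F)

/-- The restriction of `V` to every open subgroup of the absolute Galois group is irreducible (over
an algebraically closed field `F`): the matrices of the elements of the subgroup span the space of
all matrices. -/
def StronglyIrreducible (V : AbsGal K →* GL (Fin n) F) : Prop :=
  ∀ H : Subgroup (AbsGal K), IsOpen (H : Set (AbsGal K)) →
    Submodule.span F {X | ∃ h ∈ H, X = mat V h} = ⊤

/-- The representation `V` over `ℚ̄_q` is attached to the polynomials `S v`, `v` not in `B`, with
respect to the embedding `φ` of their field of coefficients: it is continuous, and at all places `v`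
not in `B` and not above `q` it is unramified and the geometric Frobenius elements are
diagonalizable with characteristic polynomial `φ (S v)`. -/
def IsAttached {E : Type} [Field E] (B : Set (HeightOneSpectrum (𝓞 K))) (q : ℕ) [Fact q.Prime]
    (φ : E →+* PadicAlgCl q) (S : HeightOneSpectrum (𝓞 K) → E[X])
    (V : AbsGal K →* GL (Fin n) (PadicAlgCl q)) : Prop :=
  Continuous V ∧ ∀ v, v ∉ B → (q : 𝓞 K) ∉ v.asIdeal →
    (∀ g, IsInertia v g → V g = 1) ∧
    ∀ g, IsFrobenius v g → (mat V g⁻¹).charpoly = (S v).map φ ∧
      ∃ (A : GL (Fin n) (PadicAlgCl q)) (D : Fin n → PadicAlgCl q),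
        mat V g⁻¹ = (A : Matrix (Fin n) (Fin n) (PadicAlgCl q)) * diagonal D *
          ((A⁻¹ : GL (Fin n) (PadicAlgCl q)) : Matrix (Fin n) (Fin n) (PadicAlgCl q))

end

/-- **One embedding suffices.** The trace of a Frobenius element is `-(S v).nextCoeff`. -/
theorem result {K : Type} [Field K] [NumberField K] {n : ℕ} (hn : 2 ≤ n)
    {E : Type} [Field E] [NumberField E] (B : Set (HeightOneSpectrum (𝓞 K)))
    (S P : HeightOneSpectrum (𝓞 K) → E[X])
    -- all representations for the polynomials `P v`
    (hP : ∀ (q : ℕ) [Fact q.Prime] (φ : E →+* PadicAlgCl q),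
      ∃ W : AbsGal K →* GL (Fin n) (PadicAlgCl q), IsAttached B q φ P W)
    -- one representation for the polynomials `S v`
    (p : ℕ) [Fact p.Prime] (ψ : E →+* PadicAlgCl p) (V : AbsGal K →* GL (Fin n) (PadicAlgCl p))
    (hV : IsAttached B p ψ S V) (hirr : StronglyIrreducible V)
    -- congruences at the places in `T`
    (T : Set (HeightOneSpectrum (𝓞 K))) (hT : ∀ v ∈ T, v ∉ B ∧ (p : 𝓞 K) ∉ v.asIdeal)
    (Z : Finset E) (ζ : HeightOneSpectrum (𝓞 K) → E) (hζ : ∀ v ∈ T, ζ v ∈ Z)
    (w : ℤ) {d : ℕ} (hd : 0 < d) (b : HeightOneSpectrum (𝓞 K) → 𝓞 E)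
    (hdiv : ∀ v ∈ T, (d : E) * ((S v).nextCoeff - ζ v * (P v).nextCoeff) ^ 2 =
      (Ideal.absNorm v.asIdeal : E) ^ w * b v)
    -- the upper density of `T` is positive, and the mean of the conjugates is bounded
    {δ : ℝ} (hδ : 0 < δ) (C : ℝ)
    (hTd : ∃ᶠ x : ℕ in atTop,
      δ * Nat.primeCounting x ≤
        ({v : HeightOneSpectrum (𝓞 K) | Ideal.absNorm v.asIdeal ≤ x ∧ v ∈ T}.ncard : ℝ) ∧
      ∑ᶠ v ∈ {v : HeightOneSpectrum (𝓞 K) | Ideal.absNorm v.asIdeal ≤ x ∧ v ∈ T},
        ∑ σ : E →+* ℂ, ‖σ (b v)‖ ≤ C * Nat.primeCounting x) :
    -- all representations for the polynomials `S v`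
    ∀ (q : ℕ) [Fact q.Prime] (φ : E →+* PadicAlgCl q),
      ∃ V' : AbsGal K →* GL (Fin n) (PadicAlgCl q),
        IsAttached (B ∪ {v | (p : 𝓞 K) ∈ v.asIdeal}) q φ S V' := by
  intro q _ φ
  exact Pool.Agent.R401.Tp.main hn B S P hP p ψ V hV hirr T hT Z ζ hζ w hd b hdiv hδ C (by
      refine (hTd.and_eventually (Nat.tendsto_primeCounting.eventually_gt_atTop 0)).mono ?_
      rintro N ⟨⟨h1, h2⟩, h3⟩
      have h4 : (0 : ℝ) < (Nat.primeCounting N : ℝ) := by exact_mod_cast h3
      refine ⟨?_, h2⟩
      unfold Pool.Agent.W401.Cheb.dens
      rw [le_div_iff₀ h4]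
      exact h1) q φ

end Pool.Agent.Results.MP_666dc0_nt.OneEmbeddingSuffices
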