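import Mathlib
import Pool.Agent.R390.BG.Main

/-! MP_666dc0_nt: rationality of Satake parameters follows from the Galois representations. -/

namespace Pool.Agent.Results.MP_666dc0_nt.RationalityFromGalois

open Pool.Agent.R390.BG

/-- Let A be a family of Satake polynomials of GL_n over a number field F. If for one prime l
and every isomorphism of C with the algebraic closure of Q_l the Galois representation of A
exists, then the polynomials of A at the places not dividing l have coefficients in one number
field; two primes l give all places; and the Buzzard-Gee conjecture for A (with its rationality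
part) is equivalent to the existence of the Galois representations for all l and all
isomorphisms. -/
theorem result (F : Type) [Field F] [NumberField F] (S : Finset (Pl F)) (n : ℕ)
    (A : Fam F S n) (hF : ∀ (p : ℕ) [Fact p.Prime], FaltingsFinite F S p n) :
    (∀ (p : ℕ) [Fact p.Prime], AllIso A p →
      ∃ E : IntermediateField ℚ ℂ, FiniteDimensional ℚ E ∧
        ∀ v, Good S p v → ∀ k, (A.pol v).coeff k ∈ E) ∧
    (∀ (p q : ℕ) [Fact p.Prime] [Fact q.Prime], p ≠ q → AllIso A p → AllIso A q →
      ∃ E : IntermediateField ℚ ℂ, FiniteDimensional ℚ E ∧ DefinedOver A E) ∧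
    (BuzzardGee A ↔ ∀ (p : ℕ) [Fact p.Prime], AllIso A p) :=
  ⟨fun p _ h => definedOver_good A p (hF p) h,
    fun p q _ _ hpq h1 h2 => definedOver_two A p q hpq (hF p) (hF q) h1 h2,
    buzzardGee_iff A hF⟩

end Pool.Agent.Results.MP_666dc0_nt.RationalityFromGalois
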